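import Pool.Agent.H64.AG.Defs

/-! # MT: the main lemma -/

set_option autoImplicit false

open Topology Cardinal Filter

namespace Pool.Agent.H86.AG

open Pool.Agent.H64.AG Pool.Agent.H64.AK Pool.Agent.H20.SL Pool.Agent.H60.CP

theorem mt (hDEN : T_DEN) (hDIC : T_DIC) (hMON : T_MON) (hCDS : T_CDS) (hBAD : T_BAD) :
    T_MT := by
  intro hMA X _ _ _ hCT L l hS ε hε
  rcases isEmpty_or_nonempty X with hX | hX
  · refine ⟨Set.univ, fun _ => 0, continuous_const, ?_, fun x => (hX.false x).elim⟩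
    exact OmegaOne.unc
  have hcont : ∀ ξ, Continuous (l ξ) := fun ξ => hS.cont _ (hS.mem ξ)
  obtain ⟨d, hd⟩ := hDEN X l hcont hS.sep
  rcases hDIC X hCT l d hcont hd ε hε with h | ⟨B, hB, hB2⟩
  · exact h
  exfalso
  refine hBAD hMA X hCT L l hS d B ε hB hε ?_ hB2
  intro δ hδ
  have hcount : (d '' Set.Iio δ).Countable := (OmegaOne.cIio δ).image d
  obtain ⟨δ1, hδ1⟩ := hMON hMA X hCT L l hS (d '' Set.Iio δ) hcount
  exact hCDS X l hcont (closure (d '' Set.Iio δ)) isClosed_closure δ1 hδ1 (PP l d δ)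
    fun z hz => ⟨hz.1, hz.2.1⟩

end Pool.Agent.H86.AG
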