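import Pool.Agent.H64.AG.Defs

/-! # NMX: the last level at which a polynomial is not almost constant -/

set_option autoImplicit false

open Topology Cardinal Filter

namespace Pool.Agent.H86.AG

open Pool.Agent.H64.AG Pool.Agent.H64.AK Pool.Agent.H20.SL Pool.Agent.H60.CP

theorem nmx : T_NMX := by
  classical
  intro X _ _ l d B hl hB p a ha
  set N : Set Om := {δ | δ ∈ Cl B ∧ ∃ z ∈ PP l d δ, a ≤ |df (ev l p) z|} with hN
  by_cases hne : N.Nonempty
  swap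
  · left
    intro δ hδ z hz
    by_contra h
    exact hne ⟨δ, hδ, z, hz, not_lt.1 h⟩
  right
  -- every member of `N` has a variable at or above it
  have hvar : ∀ δ ∈ N, ∃ i ∈ p.vars, δ ≤ i := by
    rintro δ ⟨hδ, z, hz, haz⟩
    by_contra h
    push Not at h
    have h1 : ev l p z.1 = ev l p z.2 := ev_congr fun i hi => hz.2.2 i (h i hi)
    rw [df, h1, sub_self, abs_zero] at haz
    exact absurd haz (not_le.2 ha)
  have hUne : {u : Om | ∀ δ ∈ N, δ ≤ u}.Nonempty := by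
    obtain ⟨δ0, hδ0⟩ := hne
    obtain ⟨i0, hi0, -⟩ := hvar δ0 hδ0
    refine ⟨p.vars.max' ⟨i0, hi0⟩, fun δ hδ => ?_⟩
    obtain ⟨i, hi, hle⟩ := hvar δ hδ
    exact hle.trans (Finset.le_max' _ _ hi)
  set γ : Om := WellFounded.min (wellFounded_lt (α := Om)) {u : Om | ∀ δ ∈ N, δ ≤ u} hUne with hγ
  have hγU : ∀ δ ∈ N, δ ≤ γ := WellFounded.min_mem (wellFounded_lt (α := Om)) _ hUne
  have hγmin : ∀ β, β < γ → ∃ δ ∈ N, β < δ := by
    intro β hβ
    by_contra h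
    push Not at h
    exact WellFounded.not_lt_min (wellFounded_lt (α := Om)) {u : Om | ∀ δ ∈ N, δ ≤ u} h hβ
  have hγN : γ ∈ N := by
    by_contra hcon
    have hlt : ∀ β, β < γ → ∃ δ ∈ N, β < δ ∧ δ < γ := by
      intro β hβ
      obtain ⟨δ, hδ, h1⟩ := hγmin β hβ
      refine ⟨δ, hδ, h1, lt_of_le_of_ne (hγU δ hδ) ?_⟩
      rintro rfl
      exact hcon hδ
    obtain ⟨δ0, hδ0⟩ := hne
    have hδ0lt : δ0 < γ := lt_of_le_of_ne (hγU δ0 hδ0) (by rintro rfl; exact hcon hδ0)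
    have hCl : γ ∈ Cl B := by
      refine ⟨⟨δ0, hδ0lt⟩, fun β hβ => ?_⟩
      obtain ⟨δ, hδ, h1, h2⟩ := hlt β hβ
      exact (hδ.1.2 β h1).trans h2
    set K : {β : Om // β < γ} → Set (X × X) := fun β =>
      {z | z.1 ∈ closure (d '' Set.Iio γ) ∧ z.2 ∈ closure (d '' Set.Iio γ) ∧
        (∀ ξ, ξ < β.1 → l ξ z.1 = l ξ z.2) ∧ a ≤ |df (ev l p) z|} with hK
    have hKanti : ∀ β β' : {β : Om // β < γ}, β.1 ≤ β'.1 → K β' ⊆ K β := by
      rintro β β' h z ⟨h1, h2, h3, h4⟩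
      exact ⟨h1, h2, fun ξ hξ => h3 ξ (hξ.trans_le h), h4⟩
    have hKcl : ∀ β, IsClosed (K β) := by
      intro β
      have e1 : IsClosed {z : X × X | z.1 ∈ closure (d '' Set.Iio γ)} :=
        isClosed_closure.preimage continuous_fst
      have e2 : IsClosed {z : X × X | z.2 ∈ closure (d '' Set.Iio γ)} :=
        isClosed_closure.preimage continuous_snd
      have e3 : IsClosed {z : X × X | ∀ ξ, ξ < β.1 → l ξ z.1 = l ξ z.2} := by
        simp only [Set.setOf_forall]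
        exact isClosed_iInter fun ξ => isClosed_iInter fun _ =>
          isClosed_eq ((hl ξ).comp continuous_fst) ((hl ξ).comp continuous_snd)
      have e4 : IsClosed {z : X × X | a ≤ |df (ev l p) z|} :=
        isClosed_le continuous_const (df_continuous (ev_continuous hl p)).abs
      exact e1.inter (e2.inter (e3.inter e4))
    have hKne : ∀ β, (K β).Nonempty := by
      rintro ⟨β, hβ⟩
      obtain ⟨δ, ⟨hδC, z, hz, haz⟩, h1, h2⟩ := hlt β hβ
      have hsub : closure (d '' Set.Iio δ) ⊆ closure (d '' Set.Iio γ) :=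
        closure_mono (Set.image_mono (Set.Iio_subset_Iio h2.le))
      exact ⟨z, hsub hz.1, hsub hz.2.1, fun ξ hξ => hz.2.2 ξ (hξ.trans h1), haz⟩
    have : Nonempty {β : Om // β < γ} := ⟨⟨δ0, hδ0lt⟩⟩
    have hdir : Directed (· ⊇ ·) K := by
      intro β β'
      rcases le_total β.1 β'.1 with h | h
      · exact ⟨β', hKanti _ _ h, subset_rfl⟩
      · exact ⟨β, subset_rfl, hKanti _ _ h⟩
    obtain ⟨z, hz⟩ := IsCompact.nonempty_iInter_of_directed_nonempty_isCompact_isClosed K hdir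
      hKne (fun β => (hKcl β).isCompact) hKcl
    rw [Set.mem_iInter] at hz
    refine hcon ⟨hCl, z, ⟨(hz ⟨δ0, hδ0lt⟩).1, (hz ⟨δ0, hδ0lt⟩).2.1, fun ξ hξ => ?_⟩,
      (hz ⟨δ0, hδ0lt⟩).2.2.2⟩
    obtain ⟨δ, hδ, h1, h2⟩ := hlt ξ hξ
    exact (hz ⟨δ, h2⟩).2.2.1 ξ h1
  refine ⟨γ, hγN.1, hγN.2, fun δ hδ hlt z hz => ?_⟩
  by_contra h
  exact absurd (hγU δ ⟨hδ, z, hz, not_lt.1 h⟩) (not_le.2 hlt)

end Pool.Agent.H86.AG
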