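import Pool.Agent.H64.AG.Defs

/-! # STP2: the refinement sequence, approximate version -/

set_option autoImplicit false

open Topology Cardinal Filter

namespace Pool.Agent.H86.AG

open Pool.Agent.H64.AG Pool.Agent.H64.AK Pool.Agent.H20.SL Pool.Agent.H60.CP

theorem mvpoly_countable : Countable (MvPolynomial ℕ ℚ) := by
  have h : Function.Injective fun (p : MvPolynomial ℕ ℚ) => fun m : ℕ →₀ ℕ => p.coeff m := by
    intro p q h
    ext m
    exact congrFun h m
  have h2 : Function.Injective fun (p : MvPolynomial ℕ ℚ) =>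
      (Finsupp.onFinset p.support (fun m => p.coeff m) (fun m hm => by
        rwa [MvPolynomial.mem_support_iff]) : (ℕ →₀ ℕ) →₀ ℚ) := by
    intro p q hpq
    ext m
    have := DFunLike.congr_fun hpq m
    simpa using this
  exact h2.countable

theorem stp2_step {X : Type} [TopologicalSpace X] (E : Set (X → ℝ)) (hE : CoConv2 E) (I : Type)
    (e : I → ℕ → ℕ → X → ℝ) (p : I → ℕ → MvPolynomial ℕ ℚ) (he : ∀ i n j, e i n j ∈ E)
    (m : ℕ) (G : Set I) (hG : ¬ G.Countable) :
    ∃ (G' : Set I) (q : MvPolynomial ℕ ℚ) (c : X → ℝ), G' ⊆ G ∧ ¬ G'.Countable ∧ Continuous c ∧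
      (∀ i ∈ G', p i m.unpair.1 = q) ∧
      ∀ x, {i | i ∈ G' ∧ 1 / (2 * ((m.unpair.2.unpair.2 : ℝ) + 1)) ≤
        |e i m.unpair.1 m.unpair.2.unpair.1 x - c x|}.Countable := by
  have := mvpoly_countable
  obtain ⟨q, hq⟩ := Pool.Agent.H60.CP.pig hG fun i => p i m.unpair.1
  set G1 : Set I := {i | i ∈ G ∧ p i m.unpair.1 = q} with hG1
  have hpos : (0 : ℝ) < 1 / (2 * ((m.unpair.2.unpair.2 : ℝ) + 1)) := by positivity
  obtain ⟨J, c, hc, hJ, hJc⟩ := hE G1 (fun i => e i.1 m.unpair.1 m.unpair.2.unpair.1)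
    (fun i => he _ _ _) (by rwa [Set.countable_coe_iff]) _ hpos
  refine ⟨Subtype.val '' J, q, c, ?_, ?_, hc, ?_, ?_⟩
  · rintro _ ⟨i, -, rfl⟩
    exact i.2.1
  · intro h
    exact hJ (Set.countable_of_injective_of_countable_image
      (Subtype.val_injective.injOn) h)
  · rintro _ ⟨i, -, rfl⟩
    exact i.2.2
  · intro x
    refine ((hJc x).image Subtype.val).mono ?_
    rintro _ ⟨⟨i, hi, rfl⟩, h⟩
    exact ⟨i, ⟨hi, h⟩, rfl⟩

theorem stp2 : T_STP2 := by
  classical
  intro X _ E hE I e p he hI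
  choose! G' q c h1 h2 h3 h4 h5 using fun (m : ℕ) (G : Set I) (hG : ¬ G.Countable) =>
    stp2_step E hE I e p he m G hG
  set J : ℕ → Set I := fun m => Nat.rec Set.univ (fun k G => G' k G) m with hJdef
  have hJ0 : J 0 = Set.univ := rfl
  have hJs : ∀ m, J (m + 1) = G' m (J m) := fun m => rfl
  have hJu : ∀ m, ¬ (J m).Countable := by
    intro m
    induction m with
    | zero =>
      rw [hJ0, Set.countable_univ_iff]
      exact hI
    | succ m ih =>
      rw [hJs]
      exact h2 m _ ih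
  have hanti : Antitone J := antitone_nat_of_succ_le fun m => by
    rw [hJs]
    exact h1 m _ (hJu m)
  -- the approximations
  set C : ℕ → ℕ → ℕ → X → ℝ := fun n j k =>
    c (Nat.pair n (Nat.pair j k)) (J (Nat.pair n (Nat.pair j k))) with hCdef
  have hCc : ∀ n j k, Continuous (C n j k) := fun n j k => h3 _ _ (hJu _)
  have hex : ∀ n j k m, Nat.pair n (Nat.pair j k) + 1 ≤ m → ∀ x,
      {i | i ∈ J m ∧ 1 / (2 * ((k : ℝ) + 1)) ≤ |e i n j x - C n j k x|}.Countable := by
    intro n j k m hm x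
    have h7 := h5 (Nat.pair n (Nat.pair j k)) _ (hJu (Nat.pair n (Nat.pair j k))) x
    rw [Nat.unpair_pair, Nat.unpair_pair] at h7
    refine h7.mono ?_
    rintro i ⟨hi, hx⟩
    have h6 : i ∈ J (Nat.pair n (Nat.pair j k) + 1) := hanti hm hi
    rw [hJs] at h6
    exact ⟨h6, hx⟩
  have hcau : ∀ n j k k' x, |C n j k x - C n j k' x| ≤
      1 / (2 * ((k : ℝ) + 1)) + 1 / (2 * ((k' : ℝ) + 1)) := by
    intro n j k k' x
    set m := (Nat.pair n (Nat.pair j k) + 1) + (Nat.pair n (Nat.pair j k') + 1) with hm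
    have e1 := hex n j k m (by omega) x
    have e2 := hex n j k' m (by omega) x
    have : ∃ i ∈ J m, i ∉ {i | i ∈ J m ∧ 1 / (2 * ((k : ℝ) + 1)) ≤ |e i n j x - C n j k x|} ∪
        {i | i ∈ J m ∧ 1 / (2 * ((k' : ℝ) + 1)) ≤ |e i n j x - C n j k' x|} := by
      by_contra hcon
      push Not at hcon
      exact hJu m ((e1.union e2).mono fun i hi => hcon i hi)
    obtain ⟨i, hi, hni⟩ := this
    simp only [Set.mem_union, Set.mem_setOf_eq, not_or, not_and, not_le] at hni
    have a1 := hni.1 hi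
    have a2 := hni.2 hi
    have a3 : |C n j k x - C n j k' x| ≤ |e i n j x - C n j k x| + |e i n j x - C n j k' x| := by
      have := abs_sub_le (C n j k x) (e i n j x) (C n j k' x)
      rw [abs_sub_comm (C n j k x) (e i n j x)] at this
      exact this
    linarith
  have hhalf : ∀ k : ℕ, 1 / (2 * ((k : ℝ) + 1)) + 1 / (2 * ((k : ℝ) + 1)) = 1 / ((k : ℝ) + 1) := by
    intro k
    field_simp
    norm_num
  have hmono : ∀ k k' : ℕ, k ≤ k' → 1 / (2 * ((k' : ℝ) + 1)) ≤ 1 / (2 * ((k : ℝ) + 1)) := by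
    intro k k' hk
    have : (k : ℝ) ≤ k' := by exact_mod_cast hk
    apply one_div_le_one_div_of_le
    · positivity
    · linarith
  have hcs : ∀ n j x, CauchySeq fun k => C n j k x := by
    intro n j x
    refine cauchySeq_of_le_tendsto_0 (fun k : ℕ => 1 / ((k : ℝ) + 1)) ?_
      tendsto_one_div_add_atTop_nhds_zero_nat
    intro a b N ha hb
    rw [Real.dist_eq]
    refine (hcau n j a b x).trans ?_
    rw [← hhalf N]
    exact add_le_add (hmono _ _ ha) (hmono _ _ hb)
  choose g hg using fun n j x => cauchySeq_tendsto_of_complete (hcs n j x)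
  have hgC : ∀ n j k x, |g n j x - C n j k x| ≤ 1 / ((k : ℝ) + 1) := by
    intro n j k x
    have t1 : Tendsto (fun k' => |C n j k' x - C n j k x|) atTop (𝓝 |g n j x - C n j k x|) :=
      ((hg n j x).sub tendsto_const_nhds).abs
    refine le_of_tendsto t1 ?_
    filter_upwards [eventually_ge_atTop k] with k' hk'
    refine (hcau n j k' k x).trans ?_
    rw [← hhalf k]
    exact add_le_add (hmono _ _ hk') le_rfl
  have hgcont : ∀ n j, Continuous (g n j) := by
    intro n j
    have hu : TendstoUniformly (C n j) (g n j) atTop := by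
      rw [Metric.tendstoUniformly_iff]
      intro ε hε
      have t2 : Tendsto (fun k : ℕ => 1 / ((k : ℝ) + 1)) atTop (𝓝 0) :=
        tendsto_one_div_add_atTop_nhds_zero_nat
      filter_upwards [t2.eventually (gt_mem_nhds hε)] with k hk x
      rw [Real.dist_eq]
      exact (hgC n j k x).trans_lt hk
    exact hu.continuous (Filter.Frequently.of_forall fun k => hCc n j k)
  refine ⟨J, fun n => q (Nat.pair n 0) (J (Nat.pair n 0)), g, hanti, hJu, hgcont, ?_, ?_⟩
  · intro n
    refine ⟨Nat.pair n 0 + 1, fun m hm i hi => ?_⟩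
    have h6 : i ∈ J (Nat.pair n 0 + 1) := hanti hm hi
    rw [hJs] at h6
    have h7 := h4 (Nat.pair n 0) _ (hJu (Nat.pair n 0)) i h6
    rwa [Nat.unpair_pair] at h7
  · intro n j k
    refine ⟨Nat.pair n (Nat.pair j (2 * k + 1)) + 1, fun m hm x => ?_⟩
    refine (hex n j (2 * k + 1) m hm x).mono ?_
    rintro i ⟨hi, hx⟩
    refine ⟨hi, ?_⟩
    have b1 := hgC n j (2 * k + 1) x
    have b2 : |e i n j x - g n j x| ≤ |e i n j x - C n j (2 * k + 1) x| +
        |g n j x - C n j (2 * k + 1) x| := by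
      have := abs_sub_le (e i n j x) (C n j (2 * k + 1) x) (g n j x)
      rw [abs_sub_comm (C n j (2 * k + 1) x) (g n j x)] at this
      exact this
    have hk : (0 : ℝ) < (k : ℝ) + 1 := by positivity
    have b3 : 1 / (((2 * k + 1 : ℕ) : ℝ) + 1) = 1 / (2 * ((k : ℝ) + 1)) := by
      push_cast
      congr 1
      ring
    have b4 : 1 / (2 * (((2 * k + 1 : ℕ) : ℝ) + 1)) = 1 / (4 * ((k : ℝ) + 1)) := by
      push_cast
      congr 1
      ring
    have b5 : 1 / (4 * ((k : ℝ) + 1)) + 1 / (2 * ((k : ℝ) + 1)) ≤ 1 / ((k : ℝ) + 1) := by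
      have c1 : 1 / (4 * ((k : ℝ) + 1)) = (1 / 4) * (1 / ((k : ℝ) + 1)) := by
        field_simp
      have c2 : 1 / (2 * ((k : ℝ) + 1)) = (1 / 2) * (1 / ((k : ℝ) + 1)) := by
        field_simp
      have c3 : 0 < 1 / ((k : ℝ) + 1) := by positivity
      rw [c1, c2]
      linarith
    rw [b4]
    rw [b3] at b1
    have c1 : 1 / (4 * ((k : ℝ) + 1)) = (1 / 4) * (1 / ((k : ℝ) + 1)) := by
      field_simp
    have c2 : 1 / (2 * ((k : ℝ) + 1)) = (1 / 2) * (1 / ((k : ℝ) + 1)) := by
      field_simp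
    have c3 : 0 < 1 / ((k : ℝ) + 1) := by positivity
    rw [c1]
    rw [c2] at b1
    linarith

end Pool.Agent.H86.AG
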